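import Pool.Agent.H74.G.R_seed8.Y504.CO.Stm
import Pool.Agent.H74.G.R_seed8.Y286.CO.DimA

/-!
# CO-DIM: dimensions of the spaces of bounded solutions of an asymptotically hyperbolic sequence
-/

set_option autoImplicit false

open scoped Topology
open Filter

namespace Pool.Agent.Y286.CO.DIM

open Pool.Agent.Y504.CO Pool.Agent.H718R2.G Pool.Agent.Y286.CO

theorem main : Pool.Agent.Y504.CO.S_DIM := by
  intro n B A hT hBt hinj hA hN
  let id' : V n →L[ℝ] V n := ContinuousLinearMap.id ℝ (V n)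
  have hid : Function.Injective id' := Function.injective_id
  have hfw : Module.finrank ℝ (Q (fun _ => id') (fun j : ℕ => B (1 + (j : ℤ)))) ≤
      Module.finrank ℝ (Q (fun _ => id') (fun _ => A)) := by
    refine finrank_le (fun _ => id') (fun j : ℕ => B (1 + (j : ℤ))) id' A tendsto_const_nhds
      (hT.comp ?_) (fun _ => hid) (fun j => hinj _) hid ?_
    · exact tendsto_atTop_add_const_left _ _ tendsto_natCast_atTop_atTop
    · intro u hu hsol l
      exact hN u hu (fun i => hsol i) l
  have hbw : Module.finrank ℝ (Q (fun j : ℕ => B (-1 - (j : ℤ))) (fun _ => id')) ≤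
      Module.finrank ℝ (Q (fun _ => A) (fun _ => id')) := by
    refine finrank_le (fun j : ℕ => B (-1 - (j : ℤ))) (fun _ => id') A id' (hBt.comp ?_)
      tendsto_const_nhds (fun j => hinj _) (fun _ => hid) hA ?_
    · simp only [sub_eq_add_neg]
      exact tendsto_atBot_add_const_left _ _ (tendsto_neg_atTop_atBot.comp
        tendsto_natCast_atTop_atTop)
    · rintro u ⟨K, hK⟩ hsol l
      have h1 := hN (fun i => u (-i)) ⟨K, fun i => hK _⟩ (fun i => by
        have h2 : A (u (-(i + 1) + 1)) = u (-(i + 1)) := hsol (-(i + 1))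
        rw [show -(i + 1) + 1 = -i by ring] at h2
        exact h2.symm) (-l)
      simpa using h1
  have hdisj : Disjoint (Q (fun _ => id') (fun _ => A)) (Q (fun _ => A) (fun _ => id')) := by
    rw [Submodule.disjoint_def]
    intro x hx1 hx2
    obtain ⟨u, ⟨⟨K, hK⟩, hu⟩, rfl⟩ := mem_Q.mp hx1
    obtain ⟨w, ⟨⟨L, hL⟩, hw⟩, hwu⟩ := mem_Q.mp hx2
    have h1 := hN (fun l => if 0 ≤ l then u l.toNat else w (-l).toNat)
      ⟨max K L, fun l => by
        show ‖if 0 ≤ l then u l.toNat else w (-l).toNat‖ ≤ max K L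
        split_ifs
        · exact (hK _).trans (le_max_left _ _)
        · exact (hL _).trans (le_max_right _ _)⟩
      (fun l => by
        show (if 0 ≤ l + 1 then u (l + 1).toNat else w (-(l + 1)).toNat) =
          A (if 0 ≤ l then u l.toNat else w (-l).toNat)
        rcases lt_trichotomy l (-1) with h | h | h
        · rw [if_neg (by omega), if_neg (by omega)]
          have h2 : A (w ((-(l + 1)).toNat + 1)) = w (-(l + 1)).toNat := hw (-(l + 1)).toNat
          rw [show (-(l + 1)).toNat + 1 = (-l).toNat by omega] at h2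
          exact h2.symm
        · subst h
          have h2 : A (w (0 + 1)) = w 0 := hw 0
          simp only [show ((-1 : ℤ) + 1) = 0 by norm_num, le_refl, if_true, Int.toNat_zero,
            show ¬ (0 : ℤ) ≤ -1 by norm_num, if_false, neg_neg, Int.toNat_one]
          rw [← hwu, ← h2]
        · rw [if_pos (by omega), if_pos (by omega)]
          have h2 : u (l.toNat + 1) = A (u l.toNat) := hu l.toNat
          rw [show (l + 1).toNat = l.toNat + 1 by omega]
          exact h2) 0
    simpa using h1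
  have hsum := Submodule.finrank_add_finrank_le_of_disjoint hdisj
  rw [finrank_euclideanSpace_fin] at hsum
  refine ⟨Q (fun j : ℕ => B (-1 - (j : ℤ))) (fun _ => id'),
    Q (fun _ => id') (fun j : ℕ => B (1 + (j : ℤ))), by omega, ?_, ?_⟩
  · rintro v ⟨C, hC⟩ hv
    refine mem_Q.mpr ⟨fun j : ℕ => v (-(j : ℤ)), ⟨⟨C, fun j => hC _⟩, fun j => ?_⟩, by simp⟩
    have h1 := hv (-1 - (j : ℤ)) (by omega)
    rw [show -1 - (j : ℤ) + 1 = -j by ring] at h1
    show B (-1 - (j : ℤ)) (v (-((j + 1 : ℕ) : ℤ))) = v (-(j : ℤ))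
    rw [h1, show -((j + 1 : ℕ) : ℤ) = -1 - (j : ℤ) by push_cast; ring]
  · rintro v ⟨C, hC⟩ hv
    refine mem_Q.mpr ⟨fun j : ℕ => v (1 + (j : ℤ)), ⟨⟨C, fun j => hC _⟩, fun j => ?_⟩, by simp⟩
    have h1 := hv (1 + (j : ℤ)) (by omega)
    show v (1 + ((j + 1 : ℕ) : ℤ)) = B (1 + (j : ℤ)) (v (1 + (j : ℤ)))
    rw [← h1, show 1 + ((j + 1 : ℕ) : ℤ) = 1 + (j : ℤ) + 1 by push_cast; ring]

end Pool.Agent.Y286.CO.DIM
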